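import Pool.Agent.Helper5.SM.Marg

/-!
# Project SM, block TR1: second moment for transversals
-/

set_option autoImplicit false

open MeasureTheory Set Filter Topology

namespace Pool.Agent.Helper63.SM

section tr1

variable {X : Type*} [MeasurableSpace X] {μ : Measure X} [IsProbabilityMeasure μ]
  {R : X → X → Prop} {k r : ℕ}

/-- the points chosen by `c` -/
def xc (c : Fin k → Fin r) (ω : Fin k → Fin r → X) : Fin k → X := fun b => ω b (c b)

theorem xc_mp (μ : Measure X) [IsProbabilityMeasure μ] (c : Fin k → Fin r) :
    MeasurePreserving (xc (X := X) c) (Measure.pi fun _ : Fin k => Measure.pi fun _ : Fin r => μ)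
      (Measure.pi fun _ : Fin k => μ) :=
  measurePreserving_pi (fun _ : Fin k => Measure.pi fun _ : Fin r => μ) (fun _ : Fin k => μ)
    (f := fun b w => w (c b)) fun b => measurePreserving_eval (fun _ : Fin r => μ) (c b)

/-- one coordinate of the pair -/
theorem pair_one (μ : Measure X) [IsProbabilityMeasure μ] (i j : Fin r) :
    (Measure.pi fun _ : Fin r => μ).map (fun w : Fin r → X => (w i, w j)) =
      (μ.prod μ).map (fun z : X × X => (z.1, if i = j then z.1 else z.2)) := by
  by_cases h : i = j
  · subst h
    simp only [if_true]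
    have h1 : (fun w : Fin r → X => (w i, w i)) = (fun z : X => (z, z)) ∘ Function.eval i := rfl
    have h2 : (fun z : X × X => (z.1, z.1)) = (fun z : X => (z, z)) ∘ Prod.fst := rfl
    have hm : Measurable fun z : X => (z, z) := measurable_id.prodMk measurable_id
    rw [h1, h2, ← Measure.map_map hm (measurable_pi_apply i), ← Measure.map_map hm measurable_fst,
      (measurePreserving_eval (fun _ : Fin r => μ) i).map_eq, measurePreserving_fst.map_eq]
  · simp only [if_neg h]
    have h2 : (fun z : X × X => (z.1, z.2)) = id := rfl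
    rw [h2, Measure.map_id]
    symm
    refine Measure.prod_eq fun s t hs ht => ?_
    have hm : Measurable fun w : Fin r → X => (w i, w j) :=
      (measurable_pi_apply i).prodMk (measurable_pi_apply j)
    rw [Measure.map_apply hm (hs.prod ht)]
    have e : (fun w : Fin r → X => (w i, w j)) ⁻¹' (s ×ˢ t) =
        pi univ fun l => if l = i then s else if l = j then t else univ := by
      ext w
      simp only [mem_preimage, mem_prod, Set.mem_pi, mem_univ, true_implies]
      constructor
      · rintro ⟨h1, h2⟩ l
        by_cases hl : l = i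
        · rw [if_pos hl, hl]
          exact h1
        · rw [if_neg hl]
          by_cases hl' : l = j
          · rw [if_pos hl', hl']
            exact h2
          · rw [if_neg hl']
            trivial
      · intro h3
        have h4 := h3 i
        have h5 := h3 j
        rw [if_pos rfl] at h4
        rw [if_neg (fun h6 => h h6.symm), if_pos rfl] at h5
        exact ⟨h4, h5⟩
    rw [e, Measure.pi_pi]
    rw [← Finset.mul_prod_erase Finset.univ _ (Finset.mem_univ i), if_pos rfl,
      ← Finset.mul_prod_erase _ _ (Finset.mem_erase.2 ⟨fun h6 => h h6.symm, Finset.mem_univ j⟩),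
      if_neg (fun h6 => h h6.symm), if_pos rfl, Finset.prod_eq_one, mul_one]
    intro l hl
    rw [Finset.mem_erase, Finset.mem_erase] at hl
    rw [if_neg hl.2.1, if_neg hl.1, measure_univ]

/-- the law of the pair of the points chosen by `c` and by `c'` -/
theorem pair_law (μ : Measure X) [IsProbabilityMeasure μ] (c c' : Fin k → Fin r) :
    (Measure.pi fun _ : Fin k => Measure.pi fun _ : Fin r => μ).map
        (fun ω (b : Fin k) => (ω b (c b), ω b (c' b))) =
      ((Measure.pi fun _ : Fin k => μ).prod (Measure.pi fun _ : Fin k => μ)).map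
        (fun p (b : Fin k) => (p.1 b, if c b = c' b then p.1 b else p.2 b)) := by
  have hf : ∀ b : Fin k, Measurable fun w : Fin r → X => (w (c b), w (c' b)) := fun b =>
    (measurable_pi_apply (c b)).prodMk (measurable_pi_apply (c' b))
  have hg : ∀ b : Fin k, Measurable fun z : X × X => (z.1, if c b = c' b then z.1 else z.2) := by
    intro b
    by_cases h : c b = c' b
    · simp only [h, if_true]
      exact measurable_fst.prodMk measurable_fst
    · simp only [h, if_false]
      exact measurable_fst.prodMk measurable_snd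
  have h1 := Measure.pi_map_pi (μ := fun _ : Fin k => Measure.pi fun _ : Fin r => μ)
    (f := fun b w => (w (c b), w (c' b)))
    (hμ := fun b => by
      have := Measure.isProbabilityMeasure_map (μ := Measure.pi fun _ : Fin r => μ) (hf b).aemeasurable
      infer_instance) fun b => (hf b).aemeasurable
  have h2 := Measure.pi_map_pi (μ := fun _ : Fin k => μ.prod μ)
    (f := fun b z => (z.1, if c b = c' b then z.1 else z.2))
    (hμ := fun b => by
      have := Measure.isProbabilityMeasure_map (μ := μ.prod μ) (hg b).aemeasurable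
      infer_instance) fun b => (hg b).aemeasurable
  rw [h1]
  have h3 := measurePreserving_arrowProdEquivProdArrow X X (Fin k) (fun _ => μ) (fun _ => μ)
  have hG : Measurable fun (p : (Fin k → X) × (Fin k → X)) (b : Fin k) =>
      (p.1 b, if c b = c' b then p.1 b else p.2 b) := by
    refine measurable_pi_iff.2 fun b => ?_
    by_cases h : c b = c' b
    · simp only [h, if_true]
      exact ((measurable_pi_apply b).comp measurable_fst).prodMk
        ((measurable_pi_apply b).comp measurable_fst)
    · simp only [h, if_false]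
      exact ((measurable_pi_apply b).comp measurable_fst).prodMk
        ((measurable_pi_apply b).comp measurable_snd)
  rw [← h3.map_eq, Measure.map_map hG h3.measurable]
  have h4 : (fun (p : (Fin k → X) × (Fin k → X)) (b : Fin k) =>
      (p.1 b, if c b = c' b then p.1 b else p.2 b)) ∘
        (MeasurableEquiv.arrowProdEquivProdArrow X X (Fin k)) =
      fun q b => ((q b).1, if c b = c' b then (q b).1 else (q b).2) := rfl
  rw [h4, h2]
  congr 1
  funext b
  exact pair_one μ (c b) (c' b)

/-- the expectation of a product -/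
theorem pair_int (μ : Measure X) [IsProbabilityMeasure μ] (c c' : Fin k → Fin r)
    {φ : (Fin k → X) → ℝ} (hφ : Measurable φ) (h0 : ∀ x, 0 ≤ φ x) (h1 : ∀ x, φ x ≤ 1) :
    ∫ ω, φ (xc c ω) * φ (xc c' ω) ∂(Measure.pi fun _ : Fin k => Measure.pi fun _ : Fin r => μ) =
      ∫ x, φ x * ∫ y, φ (fun b => if c b = c' b then x b else y b) ∂(Measure.pi fun _ : Fin k => μ)
        ∂(Measure.pi fun _ : Fin k => μ) := by
  have hf : Measurable fun (ω : Fin k → Fin r → X) (b : Fin k) => (ω b (c b), ω b (c' b)) :=
    measurable_pi_iff.2 fun b => ((measurable_pi_apply (c b)).comp (measurable_pi_apply b)).prodMk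
      ((measurable_pi_apply (c' b)).comp (measurable_pi_apply b))
  have hG : Measurable fun (p : (Fin k → X) × (Fin k → X)) (b : Fin k) =>
      (p.1 b, if c b = c' b then p.1 b else p.2 b) := by
    refine measurable_pi_iff.2 fun b => ?_
    by_cases h : c b = c' b
    · simp only [h, if_true]
      exact ((measurable_pi_apply b).comp measurable_fst).prodMk
        ((measurable_pi_apply b).comp measurable_fst)
    · simp only [h, if_false]
      exact ((measurable_pi_apply b).comp measurable_fst).prodMk
        ((measurable_pi_apply b).comp measurable_snd)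
  have hF : Measurable fun q : Fin k → X × X => φ (fun b => (q b).1) * φ (fun b => (q b).2) := by
    refine (hφ.comp (measurable_pi_iff.2 fun b => ?_)).mul (hφ.comp (measurable_pi_iff.2 fun b => ?_))
    · exact measurable_fst.comp (measurable_pi_apply b)
    · exact measurable_snd.comp (measurable_pi_apply b)
  have e1 := integral_map (μ := Measure.pi fun _ : Fin k => Measure.pi fun _ : Fin r => μ)
    hf.aemeasurable hF.aestronglyMeasurable
  have e2 := integral_map
    (μ := (Measure.pi fun _ : Fin k => μ).prod (Measure.pi fun _ : Fin k => μ))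
    hG.aemeasurable hF.aestronglyMeasurable
  rw [← pair_law μ c c'] at e2
  have e3 : ∫ ω, φ (xc c ω) * φ (xc c' ω)
      ∂(Measure.pi fun _ : Fin k => Measure.pi fun _ : Fin r => μ) =
      ∫ p : (Fin k → X) × (Fin k → X), φ p.1 * φ (fun b => if c b = c' b then p.1 b else p.2 b)
        ∂((Measure.pi fun _ : Fin k => μ).prod (Measure.pi fun _ : Fin k => μ)) := e1.symm.trans e2
  have hK : Measurable fun p : (Fin k → X) × (Fin k → X) =>
      φ p.1 * φ (fun b => if c b = c' b then p.1 b else p.2 b) := hF.comp hG
  rw [e3, integral_prod _ (int_bdd hK (C := 1) fun p => ?_)]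
  · simp only [integral_const_mul]
  · rw [abs_of_nonneg (mul_nonneg (h0 _) (h0 _))]
    exact mul_le_one₀ (h1 _) (h0 _) (h1 _)

/-- the number of pairs, weighted by the number of common choices outside `V` -/
theorem pairs_sum (V : Finset (Fin k)) {Λ : ℝ} (hΛ : 0 ≤ Λ) :
    ∑ c : Fin k → Fin r, ∑ c' : Fin k → Fin r,
        Λ ^ (Finset.univ.filter fun b => b ∉ V ∧ c b = c' b).card ≤
      (r : ℝ) ^ k * ((r : ℝ) + Λ) ^ k := by
  have h1 : ∀ c c' : Fin k → Fin r, Λ ^ (Finset.univ.filter fun b => b ∉ V ∧ c b = c' b).card =
      ∏ b : Fin k, if b ∉ V ∧ c b = c' b then Λ else 1 := by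
    intro c c'
    rw [Finset.prod_ite, Finset.prod_const, Finset.prod_const_one, mul_one]
  have h2 : ∀ c : Fin k → Fin r, ∑ c' : Fin k → Fin r,
      ∏ b : Fin k, (if b ∉ V ∧ c b = c' b then Λ else 1) ≤ ((r : ℝ) + Λ) ^ k := by
    intro c
    have h3 : ∑ c' : Fin k → Fin r, ∏ b : Fin k, (if b ∉ V ∧ c b = c' b then Λ else 1) =
        ∏ b : Fin k, ∑ j : Fin r, (if b ∉ V ∧ c b = j then Λ else 1) := by
      rw [Finset.prod_univ_sum, Fintype.piFinset_univ]
    rw [h3]
    have h4 : ((r : ℝ) + Λ) ^ k = ∏ _b : Fin k, ((r : ℝ) + Λ) := by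
      rw [Finset.prod_const, Finset.card_univ, Fintype.card_fin]
    rw [h4]
    refine Finset.prod_le_prod (fun b _ => Finset.sum_nonneg fun j _ => ?_) fun b _ => ?_
    · split_ifs
      · exact hΛ
      · exact zero_le_one
    · calc ∑ j : Fin r, (if b ∉ V ∧ c b = j then Λ else 1)
          ≤ ∑ j : Fin r, (1 + if c b = j then Λ else 0) := by
            refine Finset.sum_le_sum fun j _ => ?_
            by_cases hj : c b = j
            · by_cases hb : b ∉ V
              · rw [if_pos ⟨hb, hj⟩, if_pos hj]
                linarith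
              · rw [if_neg (fun h => hb h.1), if_pos hj]
                linarith
            · rw [if_neg (fun h => hj h.2), if_neg hj]
              linarith
        _ = (r : ℝ) + Λ := by
            rw [Finset.sum_add_distrib, Finset.sum_const, Finset.card_univ, Fintype.card_fin,
              nsmul_eq_mul, mul_one, Finset.sum_ite_eq, if_pos (Finset.mem_univ _)]
  calc ∑ c : Fin k → Fin r, ∑ c' : Fin k → Fin r,
        Λ ^ (Finset.univ.filter fun b => b ∉ V ∧ c b = c' b).card
      = ∑ c : Fin k → Fin r, ∑ c' : Fin k → Fin r,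
          ∏ b : Fin k, (if b ∉ V ∧ c b = c' b then Λ else 1) := by
        refine Finset.sum_congr rfl fun c _ => Finset.sum_congr rfl fun c' _ => h1 c c'
    _ ≤ ∑ _c : Fin k → Fin r, ((r : ℝ) + Λ) ^ k := Finset.sum_le_sum fun c _ => h2 c
    _ = (r : ℝ) ^ k * ((r : ℝ) + Λ) ^ k := by
        rw [Finset.sum_const, Finset.card_univ, Fintype.card_fun, Fintype.card_fin,
          Fintype.card_fin, nsmul_eq_mul, Nat.cast_pow]

/-- second moment, relative to fixed points in the coordinates `V` -/
theorem second_moment (hR : MeasurableSet {p : X × X | R p.1 p.2}) {r : ℕ} (hr : 1 ≤ r)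
    (V : Finset (Fin k)) (u : Fin k → X) {G : Set (Fin k → X)} (hG : MeasurableSet G)
    (hGI : G ⊆ IndS R Finset.univ) {Λ g : ℝ} (hΛ : 0 ≤ Λ)
    (hGe : ∀ y ∈ G, (∀ i ∈ V, y i = u i) → ∀ S : Finset (Fin k), V ⊆ S →
      ex μ R S y ≤ ex μ R V u * Λ ^ (S.card - V.card))
    (hg : g = (Measure.pi fun _ : Fin k => μ).real {y | V.piecewise u y ∈ G}) (hg0 : 0 < g) :
    g / (ex μ R V u * (1 + Λ / r) ^ k) ≤
      (Measure.pi fun _ : Fin k => Measure.pi fun _ : Fin r => μ).real
        {ω | ∃ c : Fin k → Fin r, V.piecewise u (fun b => ω b (c b)) ∈ G} := by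
  classical
  set P := (Measure.pi fun _ : Fin k => Measure.pi fun _ : Fin r => μ) with hP
  set φ : (Fin k → X) → ℝ := {y | V.piecewise u y ∈ G}.indicator fun _ => (1 : ℝ) with hφd
  have hmA : MeasurableSet {y | V.piecewise u y ∈ G} :=
    ((measurable_pw V).comp (measurable_const.prodMk measurable_id)) hG
  have hφ : Measurable φ := measurable_const.indicator hmA
  have hφ0 : ∀ x, V.piecewise u x ∉ G → φ x = 0 := by
    intro x hx
    rw [hφd]
    refine indicator_of_notMem ?_ _
    rw [mem_ofPred_eq]
    exact hx
  have h0 : ∀ x, 0 ≤ φ x := fun x => indicator_nonneg (fun _ _ => zero_le_one) x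
  have h1 : ∀ x, φ x ≤ 1 := fun x => indicator_le' (fun _ _ => le_rfl) (fun _ _ => zero_le_one) x
  have hex0 : 0 ≤ ex μ R V u := mg_nonneg (fun y => indicator_nonneg (fun _ _ => zero_le_one) y) V u
  have hind : MeasurableSet (IndS R (k := k) Finset.univ) := by
    have e : IndS R (k := k) Finset.univ =
        ⋂ i : Fin k, ⋂ j : Fin k, {x : Fin k → X | i ≠ j → ¬ R (x i) (x j)} := by
      ext x
      simp only [IndS, mem_ofPred_eq, Finset.mem_univ, true_implies, mem_iInter]
    rw [e]
    refine MeasurableSet.iInter fun i => MeasurableSet.iInter fun j => ?_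
    by_cases h : i = j
    · have e2 : {x : Fin k → X | i ≠ j → ¬ R (x i) (x j)} = univ := by
        ext x
        simp only [mem_ofPred_eq, mem_univ, iff_true]
        exact fun h2 => absurd h h2
      rw [e2]
      exact MeasurableSet.univ
    · have e2 : {x : Fin k → X | i ≠ j → ¬ R (x i) (x j)} =
          ((fun x : Fin k → X => (x i, x j)) ⁻¹' {p : X × X | R p.1 p.2})ᶜ := by
        ext x
        simp only [mem_ofPred_eq, mem_compl_iff, mem_preimage]
        exact ⟨fun h2 => h2 h, fun h2 _ => h2⟩
      rw [e2]
      exact (((measurable_pi_apply i).prodMk (measurable_pi_apply j)) hR).compl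
  -- the first moment
  have m1 : ∀ c : Fin k → Fin r, ∫ ω, φ (xc c ω) ∂P = g := by
    intro c
    have h2 := integral_map (μ := P) (xc_mp μ c).measurable.aemeasurable
      (f := φ) hφ.aestronglyMeasurable
    rw [hP, (xc_mp μ c).map_eq] at h2
    rw [hP, ← h2, hg, hφd, integral_indicator_const _ hmA, smul_eq_mul, mul_one]
  -- the second moment of a pair
  have m2 : ∀ c c' : Fin k → Fin r, ∫ ω, φ (xc c ω) * φ (xc c' ω) ∂P ≤
      g * ex μ R V u * Λ ^ (Finset.univ.filter fun b => b ∉ V ∧ c b = c' b).card := by
    intro c c'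
    set D := Finset.univ.filter fun b => b ∉ V ∧ c b = c' b with hD
    rw [hP, pair_int μ c c' hφ h0 h1]
    have key : ∀ x : Fin k → X, φ x * ∫ y, φ (fun b => if c b = c' b then x b else y b)
        ∂(Measure.pi fun _ : Fin k => μ) ≤ φ x * (ex μ R V u * Λ ^ D.card) := by
      intro x
      by_cases hx : V.piecewise u x ∈ G
      · refine mul_le_mul_of_nonneg_left ?_ (h0 x)
        have h2 : ex μ R (V ∪ D) (V.piecewise u x) ≤ ex μ R V u * Λ ^ D.card := by
          have h3 := hGe _ hx (fun i hi => by simp only [Finset.piecewise, if_pos hi]) (V ∪ D)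
            Finset.subset_union_left
          have h4 : (V ∪ D).card - V.card = D.card := by
            rw [Finset.card_union_of_disjoint, Nat.add_sub_cancel_left]
            rw [Finset.disjoint_left]
            intro b hb hb'
            rw [hD, Finset.mem_filter] at hb'
            exact hb'.2.1 hb
          rwa [h4] at h3
        refine le_trans ?_ h2
        unfold ex mg
        have hm1 : Measurable fun y : Fin k → X => φ (fun b => if c b = c' b then x b else y b) := by
          refine hφ.comp (measurable_pi_iff.2 fun b => ?_)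
          by_cases h : c b = c' b
          · simp only [h, if_true]
            exact measurable_const
          · simp only [h, if_false]
            exact measurable_pi_apply b
        have hm2 : Measurable fun y : Fin k → X => (IndS R Finset.univ).indicator
            (fun _ => (1 : ℝ)) ((V ∪ D).piecewise (V.piecewise u x) y) :=
          (measurable_const.indicator hind).comp
            ((measurable_pw (V ∪ D)).comp (measurable_const.prodMk measurable_id))
        refine integral_mono (int_bdd hm1 (C := 1) fun y => ?_) (int_bdd hm2 (C := 1) fun y => ?_)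
          fun y => ?_
        · rw [abs_of_nonneg (h0 _)]
          exact h1 _
        · rw [abs_of_nonneg (indicator_nonneg (fun _ _ => zero_le_one) _)]
          exact indicator_le' (fun _ _ => le_rfl) (fun _ _ => zero_le_one) _
        · show φ (fun b => if c b = c' b then x b else y b) ≤ (IndS R Finset.univ).indicator
            (fun _ => (1 : ℝ)) ((V ∪ D).piecewise (V.piecewise u x) y)
          have h5 : (V ∪ D).piecewise (V.piecewise u x) y =
              V.piecewise u (fun b => if c b = c' b then x b else y b) := by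
            funext b
            by_cases hb : b ∈ V
            · simp only [Finset.piecewise, if_pos hb, if_pos (Finset.mem_union_left D hb)]
            · by_cases hc : c b = c' b
              · have hbD : b ∈ D := by
                  rw [hD, Finset.mem_filter]
                  exact ⟨Finset.mem_univ b, hb, hc⟩
                simp only [Finset.piecewise, if_neg hb, if_pos (Finset.mem_union_right V hbD),
                  if_pos hc]
              · have hbD : b ∉ V ∪ D := by
                  rw [Finset.mem_union, hD, Finset.mem_filter]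
                  rintro (h | h)
                  · exact hb h
                  · exact hc h.2.2
                simp only [Finset.piecewise, if_neg hb, if_neg hbD, if_neg hc]
          rw [h5]
          by_cases h6 : V.piecewise u (fun b => if c b = c' b then x b else y b) ∈ G
          · rw [indicator_of_mem (hGI h6)]
            exact h1 _
          · have h7 : φ (fun b => if c b = c' b then x b else y b) = 0 := hφ0 _ h6
            rw [h7]
            exact indicator_nonneg (fun _ _ => zero_le_one) _
      · have h7 : φ x = 0 := hφ0 x hx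
        rw [h7, zero_mul, zero_mul]
    have hmy : Measurable fun x : Fin k → X => φ x * ∫ y,
        φ (fun b => if c b = c' b then x b else y b) ∂(Measure.pi fun _ : Fin k => μ) := by
      refine hφ.mul ?_
      have hG2 : Measurable fun (p : (Fin k → X) × (Fin k → X)) =>
          φ (fun b : Fin k => if c b = c' b then p.1 b else p.2 b) := by
        refine hφ.comp (measurable_pi_iff.2 fun b => ?_)
        by_cases h : c b = c' b
        · simp only [h, if_true]
          exact (measurable_pi_apply b).comp measurable_fst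
        · simp only [h, if_false]
          exact (measurable_pi_apply b).comp measurable_snd
      exact hG2.stronglyMeasurable.integral_prod_right'.measurable
    have h8 : ∫ x, φ x * (ex μ R V u * Λ ^ D.card) ∂(Measure.pi fun _ : Fin k => μ) =
        g * ex μ R V u * Λ ^ D.card := by
      rw [integral_mul_const, hφd, integral_indicator_const _ hmA, smul_eq_mul, mul_one, ← hg]
      ring
    rw [← h8]
    have hin0 : ∀ x : Fin k → X, 0 ≤ ∫ y, φ (fun b => if c b = c' b then x b else y b)
        ∂(Measure.pi fun _ : Fin k => μ) := fun x => integral_nonneg fun y => h0 _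
    refine integral_mono_of_nonneg (ae_of_all _ fun x => mul_nonneg (h0 x) (hin0 x)) ?_
      (ae_of_all _ key)
    refine int_bdd (hφ.mul_const _) (C := |ex μ R V u * Λ ^ D.card|) fun x => ?_
    rw [abs_mul, abs_of_nonneg (h0 x)]
    exact mul_le_of_le_one_left (abs_nonneg _) (h1 x)
  -- the sum
  set Y : (Fin k → Fin r → X) → ℝ := fun ω => ∑ c : Fin k → Fin r, φ (xc c ω) with hY
  set U : Set (Fin k → Fin r → X) :=
    {ω | ∃ c : Fin k → Fin r, V.piecewise u (fun b => ω b (c b)) ∈ G} with hU
  have hmU : MeasurableSet U := by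
    have e : U = ⋃ c : Fin k → Fin r, xc c ⁻¹' {y | V.piecewise u y ∈ G} := by
      ext ω
      simp only [hU, mem_ofPred_eq, mem_iUnion, mem_preimage]
      rfl
    rw [e]
    exact MeasurableSet.iUnion fun c => (xc_mp μ c).measurable hmA
  have hphi : ∀ c : Fin k → Fin r, Measurable fun ω : Fin k → Fin r → X => φ (xc c ω) := fun c =>
    hφ.comp (xc_mp μ c).measurable
  have hi1 : ∀ c : Fin k → Fin r, Integrable (fun ω : Fin k → Fin r → X => φ (xc c ω)) P := fun c =>
    int_bdd (hphi c) (C := 1) fun ω => by
      rw [abs_of_nonneg (h0 _)]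
      exact h1 _
  have hi2 : ∀ c c' : Fin k → Fin r,
      Integrable (fun ω : Fin k → Fin r → X => φ (xc c ω) * φ (xc c' ω)) P := fun c c' =>
    int_bdd ((hphi c).mul (hphi c')) (C := 1) fun ω => by
      rw [abs_of_nonneg (mul_nonneg (h0 _) (h0 _))]
      exact mul_le_one₀ (h1 _) (h0 _) (h1 _)
  have E1 : ∫ ω, Y ω ∂P = (r : ℝ) ^ k * g := by
    rw [hY, integral_finsetSum _ fun c _ => hi1 c]
    rw [Finset.sum_congr rfl fun c _ => m1 c, Finset.sum_const, Finset.card_univ, Fintype.card_fun,
      Fintype.card_fin, Fintype.card_fin, nsmul_eq_mul, Nat.cast_pow]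
  have hYY : ∀ ω, Y ω * Y ω = ∑ c : Fin k → Fin r, ∑ c' : Fin k → Fin r,
      φ (xc c ω) * φ (xc c' ω) := fun ω => by
    rw [hY]
    exact Finset.sum_mul_sum _ _ _ _
  have E2 : ∫ ω, Y ω * Y ω ∂P ≤ g * ex μ R V u * ((r : ℝ) ^ k * ((r : ℝ) + Λ) ^ k) := by
    simp_rw [hYY]
    rw [integral_finsetSum _ fun c _ => integrable_finsetSum _ fun c' _ => hi2 c c']
    simp_rw [integral_finsetSum _ fun c' _ => hi2 _ c']
    calc ∑ c : Fin k → Fin r, ∑ c' : Fin k → Fin r, ∫ ω, φ (xc c ω) * φ (xc c' ω) ∂P
        ≤ ∑ c : Fin k → Fin r, ∑ c' : Fin k → Fin r, g * ex μ R V u *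
            Λ ^ (Finset.univ.filter fun b => b ∉ V ∧ c b = c' b).card :=
          Finset.sum_le_sum fun c _ => Finset.sum_le_sum fun c' _ => m2 c c'
      _ = g * ex μ R V u * ∑ c : Fin k → Fin r, ∑ c' : Fin k → Fin r,
            Λ ^ (Finset.univ.filter fun b => b ∉ V ∧ c b = c' b).card := by
          rw [Finset.mul_sum]
          exact Finset.sum_congr rfl fun c _ => (Finset.mul_sum _ _ _).symm
      _ ≤ _ := mul_le_mul_of_nonneg_left (pairs_sum V hΛ) (mul_nonneg hg0.le hex0)
  -- Cauchy and Schwarz
  have hYU : ∀ ω, Y ω * U.indicator (fun _ => (1 : ℝ)) ω = Y ω := by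
    intro ω
    by_cases hω : ω ∈ U
    · rw [indicator_of_mem hω, mul_one]
    · have h3 : Y ω = 0 := by
        rw [hY]
        refine Finset.sum_eq_zero fun c _ => hφ0 _ ?_
        intro h4
        exact hω ⟨c, h4⟩
      rw [h3, zero_mul]
  have hYm : Measurable Y := by
    rw [hY]
    exact Finset.measurable_sum _ fun c _ => hphi c
  have hYi : Integrable Y P := by
    rw [hY]
    exact integrable_finsetSum _ fun c _ => hi1 c
  have hYYi : Integrable (fun ω => Y ω * Y ω) P := by
    simp_rw [hYY]
    exact integrable_finsetSum _ fun c _ => integrable_finsetSum _ fun c' _ => hi2 c c'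
  have hUi : Integrable (U.indicator fun _ => (1 : ℝ)) P := (integrable_const _).indicator hmU
  have CS : discrim (P.real U) (-2 * ∫ ω, Y ω ∂P) (∫ ω, Y ω * Y ω ∂P) ≤ 0 := by
    refine discrim_le_zero fun x => ?_
    have h3 : P.real U * (x * x) + -2 * (∫ ω, Y ω ∂P) * x + ∫ ω, Y ω * Y ω ∂P =
        ∫ ω, (x * U.indicator (fun _ => (1 : ℝ)) ω - Y ω) ^ 2 ∂P := by
      have h4 : ∀ ω, (x * U.indicator (fun _ => (1 : ℝ)) ω - Y ω) ^ 2 =
          x * x * U.indicator (fun _ => (1 : ℝ)) ω - 2 * x * Y ω + Y ω * Y ω := by
        intro ω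
        have h5 : U.indicator (fun _ => (1 : ℝ)) ω * U.indicator (fun _ => (1 : ℝ)) ω =
            U.indicator (fun _ => (1 : ℝ)) ω := by
          by_cases hω : ω ∈ U
          · rw [indicator_of_mem hω, mul_one]
          · rw [indicator_of_notMem hω, mul_zero]
        have h6 := hYU ω
        linear_combination x * x * h5 - 2 * x * h6
      simp_rw [h4]
      have i1 := integral_add (μ := P)
        (f := fun ω => x * x * U.indicator (fun _ => (1 : ℝ)) ω - 2 * x * Y ω)
        (g := fun ω => Y ω * Y ω) ((hUi.const_mul _).sub (hYi.const_mul _)) hYYi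
      have i2 := integral_sub (μ := P) (f := fun ω => x * x * U.indicator (fun _ => (1 : ℝ)) ω)
        (g := fun ω => 2 * x * Y ω) (hUi.const_mul _) (hYi.const_mul _)
      rw [i1, i2, integral_const_mul, integral_const_mul, integral_indicator_const _ hmU,
        smul_eq_mul, mul_one]
      ring
    rw [h3]
    exact integral_nonneg fun ω => sq_nonneg _
  rw [discrim] at CS
  have hUn : 0 ≤ P.real U := measureReal_nonneg
  have hr0 : (0 : ℝ) < r := by exact_mod_cast hr
  have hrk : (0 : ℝ) < (r : ℝ) ^ k := pow_pos hr0 k
  have h9 : ((r : ℝ) ^ k * g) ^ 2 ≤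
      P.real U * (g * ex μ R V u * ((r : ℝ) ^ k * ((r : ℝ) + Λ) ^ k)) := by
    have h10 := mul_le_mul_of_nonneg_left E2 hUn
    rw [E1] at CS
    nlinarith
  have h11 : ((r : ℝ) + Λ) ^ k = (r : ℝ) ^ k * (1 + Λ / r) ^ k := by
    rw [← mul_pow]
    congr 1
    field_simp
  rw [h11] at h9
  have h12 : g ≤ P.real U * (ex μ R V u * (1 + Λ / r) ^ k) := by
    have h13 : 0 < (r : ℝ) ^ k * (r : ℝ) ^ k * g := by positivity
    refine le_of_mul_le_mul_left ?_ h13
    calc (r : ℝ) ^ k * (r : ℝ) ^ k * g * g = ((r : ℝ) ^ k * g) ^ 2 := by ring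
      _ ≤ _ := h9
      _ = _ := by ring
  have h14 : 0 ≤ 1 + Λ / r := by positivity
  exact div_le_of_le_mul₀ (mul_nonneg hex0 (pow_nonneg h14 k)) hUn h12

end tr1

end Pool.Agent.Helper63.SM
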